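import Mathlib

/-!
# Orders on all subgraphs and the number of edges

If every spanning subgraph of a graph has a family of `k` linear orders (or height functions)
in which each of its edges is directed forwards in all orders, and each missing edge is directed
backwards in at least one of them, then the number of edges is at most linear in the number of
vertices.
-/

set_option linter.unusedSectionVars false

namespace TH171.Dim

open Finset

variable {α K V : Type*} [Fintype α] [DecidableEq α] [Fintype K] [DecidableEq K] [Fintype V]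
  [DecidableEq V]

/-- averaging over all colourings -/
lemma exists_phi (c : Finset α → α → K) :
    ∃ φ : α → K, (Fintype.card K + 1) ^ Fintype.card α ≤ (Fintype.card K) ^ Fintype.card α *
      (univ.filter (fun F : Finset α => ∀ e ∈ F, c F e = φ e)).card := by
  classical
  set k := Fintype.card K with hk
  set N := Fintype.card α with hN
  have h1 : ∑ φ : α → K, (univ.filter (fun F : Finset α => ∀ e ∈ F, c F e = φ e)).card
      = (k + 1) ^ N := by
    simp_rw [Finset.card_filter]
    rw [Finset.sum_comm]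
    have h2 : ∀ F : Finset α, ∑ φ : α → K, (if ∀ e ∈ F, c F e = φ e then 1 else 0)
        = (∏ _e ∈ F, 1) * ∏ _e ∈ univ \ F, k := by
      intro F
      rw [← Finset.card_filter]
      have h3 : univ.filter (fun φ : α → K => ∀ e ∈ F, c F e = φ e)
          = Fintype.piFinset (fun e => if e ∈ F then {c F e} else univ) := by
        ext φ
        simp only [Finset.mem_filter, Finset.mem_univ, true_and, Fintype.mem_piFinset]
        constructor
        · intro h e
          by_cases he : e ∈ F
          · simp [he, h e he]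
          · simp [he]
        · intro h e he
          have := h e
          simp only [he, if_true, Finset.mem_singleton] at this
          exact this.symm
      rw [h3, Fintype.card_piFinset]
      rw [← Finset.prod_sdiff (Finset.subset_univ F), mul_comm]
      congr 1
      · refine Finset.prod_congr rfl (fun e he => ?_)
        simp [he]
      · refine Finset.prod_congr rfl (fun e he => ?_)
        have : e ∉ F := (Finset.mem_sdiff.mp he).2
        simp [this, hk]
    rw [Finset.sum_congr rfl (fun F _ => h2 F)]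
    have h4 := Finset.prod_add (fun _ : α => 1) (fun _ : α => k) univ
    rw [Finset.powerset_univ] at h4
    rw [← h4, Finset.prod_const, Finset.card_univ, ← hN, add_comm]
  by_contra hcon
  push Not at hcon
  have h5 : ∑ φ : α → K, k ^ N * (univ.filter (fun F : Finset α => ∀ e ∈ F, c F e = φ e)).card
      = k ^ N * (k + 1) ^ N := by rw [← Finset.mul_sum, h1]
  rcases isEmpty_or_nonempty (α → K) with he | he
  · -- no colouring at all: then `K` is empty and `α` is not
    have : (k + 1) ^ N = 0 := by rw [← h1]; simp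
    simp at this
  · have h6 : ∑ φ : α → K, k ^ N * (univ.filter (fun F : Finset α => ∀ e ∈ F, c F e = φ e)).card
        < ∑ _φ : α → K, (k + 1) ^ N :=
      Finset.sum_lt_sum_of_nonempty Finset.univ_nonempty (fun φ _ => hcon φ)
    rw [h5, Finset.sum_const, Finset.card_univ, Fintype.card_fun, ← hk, ← hN, smul_eq_mul] at h6
    exact lt_irrefl _ h6

/-- counting small sets -/
lemma card_small (r x : ℕ) (hx : 1 ≤ x) :
    (univ.filter (fun Y : Finset α => Y.card ≤ r)).card * x ^ Fintype.card α
      ≤ x ^ r * (x + 1) ^ Fintype.card α := by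
  set N := Fintype.card α with hN
  have h4 := Finset.prod_add (fun _ : α => 1) (fun _ : α => x) univ
  rw [Finset.powerset_univ] at h4
  have h5 : (x + 1) ^ N = ∑ Y : Finset α, x ^ (N - Y.card) := by
    have h6 : ∏ _e : α, (1 + x) = (x + 1) ^ N := by
      rw [Finset.prod_const, Finset.card_univ, ← hN, add_comm]
    rw [← h6, h4]
    refine Finset.sum_congr rfl (fun Y _ => ?_)
    rw [Finset.prod_const_one, one_mul, Finset.prod_const, Finset.card_univ_sdiff]
  rw [h5, Finset.mul_sum, Finset.card_eq_sum_ones, Finset.sum_mul]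
  refine (Finset.sum_le_sum (fun Y hY => ?_)).trans
    (Finset.sum_le_sum_of_subset (Finset.filter_subset _ _))
  have hY' : Y.card ≤ r := (Finset.mem_filter.mp hY).2
  have hYN : Y.card ≤ N := by rw [hN]; exact Finset.card_le_univ Y
  rw [one_mul, ← pow_add]
  exact Nat.pow_le_pow_right hx (by omega)

/-- a shattered set of edges is small -/
lemma shatter_small (s t : α → V) (c : Finset α → α → K) (f : Finset α → K → V → ℝ)
    (hH : ∀ F e, e ∉ F → ∀ i, f F i (s e) < f F i (t e))
    (hF : ∀ F e, e ∈ F → f F (c F e) (t e) < f F (c F e) (s e)) (φ : α → K) (Y : Finset α)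
    (hY : (univ.filter (fun F : Finset α => ∀ e ∈ F, c F e = φ e)).Shatters Y) :
    Y.card ≤ Fintype.card K * Fintype.card V := by
  classical
  let v : Y → (K × V → ℝ) := fun e p =>
    if p.1 = φ e then (if p.2 = s e then 1 else 0) - (if p.2 = t e then 1 else 0) else 0
  by_contra hcon
  push Not at hcon
  have hdep : ¬ LinearIndependent ℝ v := by
    intro hli
    have h1 := hli.fintype_card_le_finrank
    rw [Module.finrank_fintype_fun_eq_card, Fintype.card_prod, Fintype.card_coe] at h1
    omega
  rw [Fintype.not_linearIndependent_iff] at hdep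
  obtain ⟨g, hg0, e0, he0⟩ := hdep
  set T : Finset α := (univ.filter (fun e : Y => g e < 0)).map (Function.Embedding.subtype _)
    with hT
  have hTY : T ⊆ Y := by
    intro e he
    rw [hT, Finset.mem_map] at he
    obtain ⟨e', _, rfl⟩ := he
    exact e'.2
  obtain ⟨F, hF1, hF2⟩ := hY hTY
  rw [Finset.mem_filter] at hF1
  have hmem : ∀ e : Y, (e : α) ∈ F ↔ g e < 0 := by
    intro e
    have h1 : (e : α) ∈ Y ∩ F ↔ (e : α) ∈ T := by rw [hF2]
    rw [Finset.mem_inter] at h1
    have h2 : (e : α) ∈ T ↔ g e < 0 := by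
      rw [hT, Finset.mem_map]
      constructor
      · rintro ⟨e', he', h3⟩
        have : e' = e := Subtype.ext h3
        rw [← this]
        exact (Finset.mem_filter.mp he').2
      · intro h
        exact ⟨e, by simpa using h, rfl⟩
    rw [← h2, ← h1]
    exact ⟨fun h => ⟨e.2, h⟩, fun h => h.2⟩
  -- pair with the vector of all orders
  have hval : ∀ e : Y, ∑ p : K × V, v e p * f F p.1 p.2
      = f F (φ e) (s e) - f F (φ e) (t e) := by
    intro e
    rw [Fintype.sum_prod_type]
    rw [Finset.sum_eq_single (φ e)]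
    · simp only [v, if_true, sub_mul, ite_mul, one_mul, zero_mul, Finset.sum_sub_distrib,
        Finset.sum_ite_eq', Finset.mem_univ]
    · intro i _ hi
      simp [v, hi]
    · intro h; exact absurd (Finset.mem_univ _) h
  have hsum : ∑ e : Y, g e * (f F (φ e) (s e) - f F (φ e) (t e)) = 0 := by
    have h1 : ∀ p : K × V, ∑ e : Y, g e * v e p = 0 := by
      intro p
      have := congrFun hg0 p
      simpa [Finset.sum_apply] using this
    calc ∑ e : Y, g e * (f F (φ e) (s e) - f F (φ e) (t e))
        = ∑ e : Y, ∑ p : K × V, (g e * v e p) * f F p.1 p.2 := by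
          refine Finset.sum_congr rfl (fun e _ => ?_)
          rw [← hval e, Finset.mul_sum]
          exact Finset.sum_congr rfl (fun p _ => by ring)
      _ = ∑ p : K × V, (∑ e : Y, g e * v e p) * f F p.1 p.2 := by
          rw [Finset.sum_comm]
          exact Finset.sum_congr rfl (fun p _ => by rw [Finset.sum_mul])
      _ = 0 := Finset.sum_eq_zero (fun p _ => by rw [h1 p, zero_mul])
  have hle : ∀ e : Y, g e * (f F (φ e) (s e) - f F (φ e) (t e)) ≤ 0 ∧
      (g e ≠ 0 → g e * (f F (φ e) (s e) - f F (φ e) (t e)) < 0) := by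
    intro e
    rcases lt_or_ge (g e) 0 with h | h
    · have h1 : (e : α) ∈ F := (hmem e).mpr h
      have h2 := hF F e h1
      rw [hF1.2 e h1] at h2
      have h3 : g e * (f F (φ e) (s e) - f F (φ e) (t e)) < 0 :=
        mul_neg_of_neg_of_pos h (by linarith)
      exact ⟨h3.le, fun _ => h3⟩
    · have h1 : (e : α) ∉ F := fun h' => absurd ((hmem e).mp h') (not_lt.mpr h)
      have h2 := hH F e h1 (φ e)
      refine ⟨mul_nonpos_of_nonneg_of_nonpos h (by linarith), fun hne => ?_⟩
      exact mul_neg_of_pos_of_neg (lt_of_le_of_ne h (Ne.symm hne)) (by linarith)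
  have hneg : ∑ e : Y, g e * (f F (φ e) (s e) - f F (φ e) (t e)) < 0 :=
    Finset.sum_neg' (fun e _ => (hle e).1) ⟨e0, Finset.mem_univ _, (hle e0).2 he0⟩
  rw [hsum] at hneg
  exact lt_irrefl _ hneg

/-- numerical part -/
lemma numeric (k N r G : ℕ) (hk : 1 ≤ k) (h1 : (k + 1) ^ N ≤ k ^ N * G)
    (h2 : G * (2 * k) ^ N ≤ (2 * k) ^ r * (2 * k + 1) ^ N) :
    N ≤ (2 * k + 1) * (2 * k * r + 1) := by
  by_contra hcon
  push Not at hcon
  have h3 : (2 * k + 2) ^ N ≤ (2 * k) ^ r * (2 * k + 1) ^ N := by
    have h4 : (k + 1) ^ N * (2 * k) ^ N ≤ k ^ N * ((2 * k) ^ r * (2 * k + 1) ^ N) := by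
      calc (k + 1) ^ N * (2 * k) ^ N ≤ (k ^ N * G) * (2 * k) ^ N := Nat.mul_le_mul_right _ h1
        _ = k ^ N * (G * (2 * k) ^ N) := by ring
        _ ≤ _ := Nat.mul_le_mul_left _ h2
    have h5 : (k + 1) ^ N * (2 * k) ^ N = k ^ N * (2 * k + 2) ^ N := by
      rw [← mul_pow, ← mul_pow]
      congr 1
      ring
    rw [h5] at h4
    exact Nat.le_of_mul_le_mul_left h4 (by positivity)
  obtain ⟨M, hM⟩ : ∃ M, M = 2 * k * r + 1 := ⟨_, rfl⟩
  rw [← hM] at hcon
  have h6 : 2 * (2 * k + 1) ^ (2 * k + 1) ≤ (2 * k + 2) ^ (2 * k + 1) := by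
    have h7 := one_add_mul_le_pow (R := ℝ) (a := 1 / (2 * k + 1)) (by
      have : (0 : ℝ) ≤ 1 / (2 * k + 1) := by positivity
      linarith) (2 * k + 1)
    have h8 : (1 : ℝ) + (2 * k + 1 : ℕ) * (1 / (2 * k + 1)) = 2 := by
      push_cast
      field_simp
      norm_num
    rw [h8] at h7
    have h9 : (1 + 1 / (2 * (k : ℝ) + 1)) = (2 * k + 2) / (2 * k + 1) := by
      field_simp
      ring
    rw [h9, div_pow, le_div_iff₀ (by positivity)] at h7
    exact_mod_cast h7
  have h10 : 2 ^ M * (2 * k + 1) ^ ((2 * k + 1) * M) ≤ (2 * k + 2) ^ ((2 * k + 1) * M) := by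
    rw [pow_mul, pow_mul, ← mul_pow]
    exact Nat.pow_le_pow_left h6 M
  obtain ⟨q, hq⟩ : ∃ q, N = (2 * k + 1) * M + q := ⟨N - (2 * k + 1) * M, by omega⟩
  have h11 : 2 ^ M * (2 * k + 1) ^ N ≤ (2 * k + 2) ^ N := by
    have h16 : (2 * k + 1) ^ q ≤ (2 * k + 2) ^ q := Nat.pow_le_pow_left (by omega) q
    calc 2 ^ M * (2 * k + 1) ^ N
        = (2 ^ M * (2 * k + 1) ^ ((2 * k + 1) * M)) * (2 * k + 1) ^ q := by
          rw [hq, pow_add, mul_assoc]
      _ ≤ (2 * k + 2) ^ ((2 * k + 1) * M) * (2 * k + 2) ^ q := Nat.mul_le_mul h10 h16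
      _ = (2 * k + 2) ^ N := by rw [hq, pow_add]
  have h12 : 2 ^ M * (2 * k + 1) ^ N ≤ (2 * k) ^ r * (2 * k + 1) ^ N := h11.trans h3
  have h13 : 2 ^ M ≤ (2 * k) ^ r := Nat.le_of_mul_le_mul_right h12 (by positivity)
  have h14 : (2 * k) ^ r ≤ 2 ^ (2 * k * r) := by
    rw [pow_mul]
    exact Nat.pow_le_pow_left (Nat.lt_two_pow_self).le r
  have h15 : 2 ^ (2 * k * r) < 2 ^ M := Nat.pow_lt_pow_right (by norm_num) (by omega)
  omega

/-- The main inequality. -/
theorem main (s t : α → V) (c : Finset α → α → K) (f : Finset α → K → V → ℝ)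
    (hH : ∀ F e, e ∉ F → ∀ i, f F i (s e) < f F i (t e))
    (hF : ∀ F e, e ∈ F → f F (c F e) (t e) < f F (c F e) (s e)) :
    Fintype.card α ≤ (2 * Fintype.card K + 1) *
      (2 * Fintype.card K * (Fintype.card K * Fintype.card V) + 1) := by
  classical
  rcases isEmpty_or_nonempty α with he | ⟨⟨e0⟩⟩
  · simp [Fintype.card_eq_zero]
  have hk : 1 ≤ Fintype.card K := Fintype.card_pos_iff.mpr ⟨c ∅ e0⟩
  obtain ⟨φ, hφ⟩ := exists_phi c
  refine numeric _ _ _ _ hk hφ ?_
  refine le_trans (Nat.mul_le_mul_right _ ?_) (card_small (α := α)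
    (Fintype.card K * Fintype.card V) (2 * Fintype.card K) (by omega))
  refine (Finset.card_le_card_shatterer _).trans (Finset.card_le_card (fun Y hY => ?_))
  rw [Finset.mem_shatterer] at hY
  simp only [Finset.mem_filter, Finset.mem_univ, true_and]
  exact shatter_small s t c f hH hF φ Y hY

end TH171.Dim
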