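import Mathlib

/-!
# Posets of bounded height built from shallow minor models
-/

set_option linter.unusedSectionVars false

namespace TH171.Dim

open Finset Relation

/-- half of the edges can be cut -/
lemma half_cut {W E : Type*} [Fintype W] [DecidableEq W] [Fintype E] (a b : E → W)
    (hab : ∀ e, a e ≠ b e) :
    ∃ χ : W → Bool, Fintype.card E ≤ 2 * (univ.filter (fun e : E => χ (a e) ≠ χ (b e))).card := by
  classical
  have key : ∀ e, 2 * (univ.filter (fun χ : W → Bool => χ (a e) ≠ χ (b e))).card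
      = Fintype.card (W → Bool) := by
    intro e
    have h1 : (univ.filter (fun χ : W → Bool => χ (a e) ≠ χ (b e))).card
        = (univ.filter (fun χ : W → Bool => ¬ χ (a e) ≠ χ (b e))).card := by
      have hb : b e ≠ a e := fun h => hab e h.symm
      refine Finset.card_nbij' (fun χ => Function.update χ (a e) (!χ (a e)))
        (fun χ => Function.update χ (a e) (!χ (a e))) ?_ ?_ ?_ ?_
      · intro χ hχ
        simp only [Finset.coe_filter, Finset.mem_univ, true_and, Set.mem_ofPred_eq,
          Function.update_self, Function.update_of_ne hb] at hχ ⊢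
        cases h1 : χ (a e) <;> cases h2 : χ (b e) <;> simp_all
      · intro χ hχ
        simp only [Finset.coe_filter, Finset.mem_univ, true_and, Set.mem_ofPred_eq,
          Function.update_self, Function.update_of_ne hb] at hχ ⊢
        cases h1 : χ (a e) <;> cases h2 : χ (b e) <;> simp_all
      · intro χ _
        simp
      · intro χ _
        simp
    have h2 := Finset.card_filter_add_card_filter_not (s := (univ : Finset (W → Bool)))
      (fun χ : W → Bool => χ (a e) ≠ χ (b e))
    rw [Finset.card_univ] at h2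
    omega
  have hsum : ∑ χ : W → Bool, 2 * (univ.filter (fun e : E => χ (a e) ≠ χ (b e))).card
      = ∑ _χ : W → Bool, Fintype.card E := by
    rw [← Finset.mul_sum]
    simp_rw [Finset.card_filter]
    rw [Finset.sum_comm, Finset.mul_sum]
    have h3 : ∀ e : E, 2 * ∑ χ : W → Bool, (if χ (a e) ≠ χ (b e) then 1 else 0)
        = Fintype.card (W → Bool) := by
      intro e
      rw [← Finset.card_filter]
      exact key e
    rw [Finset.sum_congr rfl (fun e _ => h3 e), Finset.sum_const, Finset.sum_const,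
      Finset.card_univ, Finset.card_univ, smul_eq_mul, smul_eq_mul, mul_comm]
  obtain ⟨χ, _, hχ⟩ := Finset.exists_le_of_sum_le (s := (univ : Finset (W → Bool)))
    Finset.univ_nonempty hsum.ge
  exact ⟨χ, hχ⟩

section

variable {V W α : Type*} (G : SimpleGraph V) (B : W → Set V) (v : W → V)

/-- vertices reached from the centre by `n` steps inside the branch set -/
def Rn (w : W) : ℕ → V → Prop
  | 0, u => u = v w
  | n + 1, u => ∃ x, Rn w n x ∧ G.Adj x u ∧ u ∈ B w

lemma Rn_mem (hv : ∀ w, v w ∈ B w) (w : W) (n : ℕ) (u : V) (h : Rn G B v w n u) : u ∈ B w := by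
  cases n with
  | zero => rw [Rn] at h; rw [h]; exact hv w
  | succ n => obtain ⟨x, _, _, h3⟩ := h; exact h3

lemma Rn_walk (w : W) {x u : V} (p : G.Walk x u) (hp : ∀ y ∈ p.support, y ∈ B w) :
    ∀ n, Rn G B v w n x → Rn G B v w (n + p.length) u := by
  induction p with
  | nil => intro n h; simpa using h
  | @cons x x' u h p ih =>
    intro n hn
    have h1 : ∀ y ∈ p.support, y ∈ B w := fun y hy => hp y (by simp [hy])
    have h2 : x' ∈ B w := h1 x' p.start_mem_support
    have h3 := ih h1 (n + 1) ⟨x, hn, h, h2⟩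
    rw [SimpleGraph.Walk.length_cons]
    have : n + (p.length + 1) = n + 1 + p.length := by ring
    rw [this]
    exact h3

open scoped Classical in
/-- the distance from the centre inside the branch set (`0` if there is no walk) -/
noncomputable def dl (w : W) (u : V) : ℕ :=
  if h : ∃ n, Rn G B v w n u then Nat.find h else 0

lemma dl_spec (w : W) (u : V) (h : ∃ n, Rn G B v w n u) : Rn G B v w (dl G B v w u) u := by
  classical
  unfold dl
  rw [dif_pos h]
  exact Nat.find_spec h

lemma dl_le (w : W) (u : V) (n : ℕ) (h : Rn G B v w n u) : dl G B v w u ≤ n := by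
  classical
  unfold dl
  rw [dif_pos ⟨n, h⟩]
  exact Nat.find_min' _ h

/-- the arcs of the directed graph: outwards in the branch sets with `χ`, then one arc for each
edge of the minor outside `F`, and inwards in the other branch sets -/
def Arc (χ : W → Prop) (xe ye : α → V) (F : Set α) (x y : V) : Prop :=
  (∃ a, χ a ∧ x ∈ B a ∧ y ∈ B a ∧ G.Adj x y ∧ dl G B v a y = dl G B v a x + 1) ∨
  (∃ b, ¬ χ b ∧ x ∈ B b ∧ y ∈ B b ∧ G.Adj x y ∧ dl G B v b x = dl G B v b y + 1) ∨
  (∃ e, e ∉ F ∧ x = xe e ∧ y = ye e)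

variable (hB : ∀ w w', w ≠ w' → Disjoint (B w) (B w')) (hv : ∀ w, v w ∈ B w) (r : ℕ)
  (hr : ∀ w, ∀ u ∈ B w, ∃ p : G.Walk (v w) u, p.length ≤ r ∧ ∀ x ∈ p.support, x ∈ B w)

include hB in
lemma own_unique {w w' : W} {x : V} (h : x ∈ B w) (h' : x ∈ B w') : w = w' := by
  by_contra hne
  exact Set.disjoint_left.mp (hB w w' hne) h h'

include hr in
lemma Rn_exists (w : W) (u : V) (hu : u ∈ B w) : ∃ n, n ≤ r ∧ Rn G B v w n u := by
  obtain ⟨p, hp, hps⟩ := hr w u hu
  have h := Rn_walk G B v w p hps 0 rfl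
  exact ⟨p.length, hp, by simpa using h⟩

include hr in
lemma dl_le_r (w : W) (u : V) (hu : u ∈ B w) : dl G B v w u ≤ r := by
  obtain ⟨n, hn, h⟩ := Rn_exists G B v r hr w u hu
  exact (dl_le G B v w u n h).trans hn

include hv hr in
lemma pred_exists (w : W) (u : V) (hu : u ∈ B w) (n : ℕ) (hn : dl G B v w u = n + 1) :
    ∃ x ∈ B w, G.Adj x u ∧ dl G B v w x = n := by
  obtain ⟨k, _, hk⟩ := Rn_exists G B v r hr w u hu
  have h1 := dl_spec G B v w u ⟨k, hk⟩
  rw [hn] at h1
  obtain ⟨x, hx, hadj, _⟩ := h1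
  have hxB := Rn_mem G B v hv w n x hx
  refine ⟨x, hxB, hadj, ?_⟩
  have h2 := dl_le G B v w x n hx
  have h3 := dl_spec G B v w x ⟨n, hx⟩
  have h4 : Rn G B v w (dl G B v w x + 1) u := ⟨x, h3, hadj, hu⟩
  have h5 := dl_le G B v w u _ h4
  omega

lemma dl_zero (w : W) (u : V) (hex : ∃ n, Rn G B v w n u) (h : dl G B v w u = 0) : u = v w := by
  have h1 := dl_spec G B v w u hex
  rw [h] at h1
  exact h1

include hv hr in
lemma reach_out (χ : W → Prop) (xe ye : α → V) (F : Set α) (a : W) (ha : χ a) (n : ℕ) :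
    ∀ u ∈ B a, dl G B v a u = n → ReflTransGen (Arc G B v χ xe ye F) (v a) u := by
  induction n with
  | zero =>
    intro u hu h
    obtain ⟨k, _, hk⟩ := Rn_exists G B v r hr a u hu
    rw [dl_zero G B v a u ⟨k, hk⟩ h]
  | succ n ih =>
    intro u hu h
    obtain ⟨x, hx, hadj, hxn⟩ := pred_exists G B v hv r hr a u hu n h
    exact (ih x hx hxn).tail (Or.inl ⟨a, ha, hx, hu, hadj, by rw [h, hxn]⟩)

include hv hr in
lemma reach_in (χ : W → Prop) (xe ye : α → V) (F : Set α) (b : W) (hb : ¬ χ b) (n : ℕ) :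
    ∀ u ∈ B b, dl G B v b u = n → ReflTransGen (Arc G B v χ xe ye F) u (v b) := by
  induction n with
  | zero =>
    intro u hu h
    obtain ⟨k, _, hk⟩ := Rn_exists G B v r hr b u hu
    rw [dl_zero G B v b u ⟨k, hk⟩ h]
  | succ n ih =>
    intro u hu h
    obtain ⟨x, hx, hadj, hxn⟩ := pred_exists G B v hv r hr b u hu n h
    exact ReflTransGen.head (Or.inr (Or.inl ⟨b, hb, hu, hx, hadj.symm, by rw [h, hxn]⟩))
      (ih x hx hxn)

open scoped Classical in
/-- the rank -/
noncomputable def rk (χ : W → Prop) (x : V) : ℕ :=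
  if h : ∃ w, x ∈ B w then
    (if χ h.choose then dl G B v h.choose x else 2 * r + 1 - dl G B v h.choose x) else 0

include hB in
lemma rk_pos (χ : W → Prop) {x : V} {w : W} (hx : x ∈ B w) (hw : χ w) :
    rk G B v r χ x = dl G B v w x := by
  classical
  unfold rk
  have h : ∃ w, x ∈ B w := ⟨w, hx⟩
  have h1 : h.choose = w := own_unique B hB h.choose_spec hx
  rw [dif_pos h, h1, if_pos hw]

include hB in
lemma rk_neg (χ : W → Prop) {x : V} {w : W} (hx : x ∈ B w) (hw : ¬ χ w) :
    rk G B v r χ x = 2 * r + 1 - dl G B v w x := by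
  classical
  unfold rk
  have h : ∃ w, x ∈ B w := ⟨w, hx⟩
  have h1 : h.choose = w := own_unique B hB h.choose_spec hx
  rw [dif_pos h, h1, if_neg hw]

include hr in
lemma rk_le (χ : W → Prop) (x : V) : rk G B v r χ x ≤ 2 * r + 1 := by
  classical
  unfold rk
  split_ifs with h h1
  · have := dl_le_r G B v r hr h.choose x h.choose_spec
    omega
  · omega
  · omega

variable (χ : W → Prop) (s t : α → W) (xe ye : α → V)
  (hs : ∀ e, χ (s e)) (ht : ∀ e, ¬ χ (t e)) (hx : ∀ e, xe e ∈ B (s e)) (hy : ∀ e, ye e ∈ B (t e))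
  (hadj : ∀ e, G.Adj (xe e) (ye e))
  (hinj : ∀ e e', s e = s e' → t e = t e' → e = e')

include hB hr hs ht hx hy in
lemma arc_rk (F : Set α) {x y : V} (h : Arc G B v χ xe ye F x y) :
    rk G B v r χ x < rk G B v r χ y := by
  rcases h with ⟨a, ha, hxa, hya, _, hd⟩ | ⟨b, hb, hxb, hyb, _, hd⟩ | ⟨e, _, rfl, rfl⟩
  · rw [rk_pos G B v hB r χ hxa ha, rk_pos G B v hB r χ hya ha]
    omega
  · rw [rk_neg G B v hB r χ hxb hb, rk_neg G B v hB r χ hyb hb]
    have := dl_le_r G B v r hr b x hxb
    omega
  · rw [rk_pos G B v hB r χ (hx e) (hs e), rk_neg G B v hB r χ (hy e) (ht e)]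
    have h1 := dl_le_r G B v r hr _ _ (hx e)
    have h2 := dl_le_r G B v r hr _ _ (hy e)
    omega

include hB hr hs ht hx hy in
lemma rtg_rk (F : Set α) {x y : V} (h : ReflTransGen (Arc G B v χ xe ye F) x y) :
    x = y ∨ rk G B v r χ x < rk G B v r χ y := by
  induction h with
  | refl => exact Or.inl rfl
  | tail _ h2 ih =>
    have h3 := arc_rk G B v hB r hr χ s t xe ye hs ht hx hy F h2
    rcases ih with rfl | ih
    · exact Or.inr h3
    · exact Or.inr (ih.trans h3)

include hadj in
lemma arc_adj (F : Set α) {x y : V} (h : Arc G B v χ xe ye F x y) : G.Adj x y := by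
  rcases h with ⟨a, ha, hxa, hya, h, hd⟩ | ⟨b, hb, hxb, hyb, h, hd⟩ | ⟨e, _, rfl, rfl⟩
  · exact h
  · exact h
  · exact hadj e

include hB hv hs ht hx hy hinj in
lemma no_path (F : Set α) (e : α) (he : e ∈ F) :
    ¬ ReflTransGen (Arc G B v χ xe ye F) (v (s e)) (v (t e)) := by
  intro h
  have key : ∀ z, ReflTransGen (Arc G B v χ xe ye F) (v (s e)) z →
      z ∈ B (s e) ∨ ∃ e', e' ∉ F ∧ s e' = s e ∧ z ∈ B (t e') := by
    intro z hz
    induction hz with
    | refl => exact Or.inl (hv _)
    | @tail x y _ h2 ih =>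
      rcases ih with ih | ⟨e', he', hse, ih⟩
      · rcases h2 with ⟨a, ha, hxa, hya, _, _⟩ | ⟨b, hb, hxb, hyb, _, _⟩ | ⟨e'', he'', rfl, rfl⟩
        · rw [own_unique B hB ih hxa]; exact Or.inl hya
        · exact absurd (hs e) (own_unique B hB ih hxb ▸ hb)
        · exact Or.inr ⟨e'', he'', own_unique B hB (hx e'') ih, hy e''⟩
      · rcases h2 with ⟨a, ha, hxa, hya, _, _⟩ | ⟨b, hb, hxb, hyb, _, _⟩ | ⟨e'', he'', rfl, rfl⟩
        · exact absurd ha (own_unique B hB ih hxa ▸ ht e')
        · refine Or.inr ⟨e', he', hse, ?_⟩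
          rw [own_unique B hB ih hxb]; exact hyb
        · exact absurd (hs e'') (own_unique B hB ih (hx e'') ▸ ht e')
  rcases key _ h with h1 | ⟨e', he', hse, h1⟩
  · have h2 := own_unique B hB h1 (hv (t e))
    exact ht e (h2 ▸ hs e)
  · have h2 := own_unique B hB h1 (hv (t e))
    exact he' (hinj e' e hse h2 ▸ he)

include hB hv hr hs ht hx hy hadj hinj in
/-- The poset for the set `F` of deleted edges. -/
theorem exists_order (F : Set α) : ∃ P : PartialOrder V,
    (∀ S : Finset V, IsChain (fun x y => P.le x y) (S : Set V) → S.card ≤ 2 * r + 2) ∧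
    (∀ x y, (@CovBy V P.toLT x y) → G.Adj x y) ∧
    ∀ e, P.le (v (s e)) (v (t e)) ↔ e ∉ F := by
  classical
  have hrk := @rtg_rk V W α G B v hB r hr χ s t xe ye hs ht hx hy F
  let P : PartialOrder V :=
    { le := ReflTransGen (Arc G B v χ xe ye F)
      le_refl := fun x => ReflTransGen.refl
      le_trans := fun x y z h1 h2 => h1.trans h2
      le_antisymm := fun x y h1 h2 => by
        rcases hrk h1 with h | h
        · exact h
        · rcases hrk h2 with h' | h'
          · exact h'.symm
          · omega }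
  refine ⟨P, ?_, ?_, ?_⟩
  · intro S hS
    have h1 : S.card ≤ (Finset.range (2 * r + 2)).card := by
      refine Finset.card_le_card_of_injOn (rk G B v r χ) (fun x _ => ?_) ?_
      · have := rk_le G B v r hr χ x
        simp only [Finset.coe_range, Set.mem_Iio]
        omega
      · intro x hxS y hyS hxy
        by_contra hne
        rcases hS hxS hyS hne with h | h
        · rcases hrk h with h' | h'
          · exact hne h'
          · omega
        · rcases hrk h with h' | h'
          · exact hne h'.symm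
          · omega
    simpa using h1
  · intro x y hxy
    have h1 : ReflTransGen (Arc G B v χ xe ye F) x y := (@LT.lt.le V P.toPreorder x y hxy.1)
    have hne : x ≠ y := @LT.lt.ne V P.toPreorder x y hxy.1
    rcases ReflTransGen.cases_head h1 with h | ⟨z, hz1, hz2⟩
    · exact absurd h hne
    · by_cases hzy : z = y
      · rw [← hzy]; exact arc_adj G B v χ xe ye hadj F hz1
      · exfalso
        have hxz : x ≠ z := by
          intro h
          have := arc_rk G B v hB r hr χ s t xe ye hs ht hx hy F hz1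
          rw [h] at this
          exact lt_irrefl _ this
        have h2 : P.lt x z := @lt_of_le_of_ne V P x z (ReflTransGen.single hz1) hxz
        have h3 : P.lt z y := @lt_of_le_of_ne V P z y hz2 hzy
        exact hxy.2 h2 h3
  · intro e
    constructor
    · intro h he
      exact no_path G B v hB hv χ s t xe ye hs ht hx hy hinj F e he h
    · intro he
      have h1 := reach_out G B v hv r hr χ xe ye F (s e) (hs e) _ (xe e) (hx e) rfl
      have h2 := reach_in G B v hv r hr χ xe ye F (t e) (ht e) _ (ye e) (hy e) rfl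
      exact (h1.tail (Or.inr (Or.inr ⟨e, he, rfl, rfl⟩))).trans h2

end

end TH171.Dim
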